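import Pool.Agent.MP_77f003_co.H51.HBasic

/-!
Rerouting far out and diverging families.
-/

namespace Pool.Agent.MP_77f003_co.H49

open SimpleGraph Filter Set

namespace MDiv

variable {V ι : Type} {G : SimpleGraph V} [Fact G.Connected]

theorem rf_shift {S : ℕ} {ω : ℕ → V} {R : ι → ℕ → V} (h : RF G S ω R) (hω : LR G ω) (n : ℕ) :
    RF G S ω fun i k => R i (n + k) :=
  ⟨fun i => (h.lr i).shift n, fun i => ((TE.shift (R i) n).se ((h.lr i).shift n)).trans (h.se i)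
    ((h.lr i).shift n) (h.lr i) hω, fun i j e => (h.far i j e).mono
      (by rintro _ ⟨k, rfl⟩; exact ⟨_, rfl⟩) (by rintro _ ⟨k, rfl⟩; exact ⟨_, rfl⟩)⟩

theorem md_trans [Finite ι] {σ : ℕ} {M L L' : ι → ℕ → V} (h : MD G σ M L) (h' : MD G σ L L') :
    MD G σ M L' := by
  intro x t
  obtain ⟨Ψ, h1, h2⟩ := h x t
  choose a1 a2 n a3 a4 a5 using h1
  have e : ∀ i, ∃ m m', n i ≤ m ∧ ∀ k, Ψ i (m + k) = L i (m' + k) := fun i =>
    let ⟨m, m', e⟩ := a2 i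
    ⟨m + n i, m' + n i, Nat.le_add_left _ _, fun k => by rw [add_assoc, e, add_assoc]⟩
  choose m m' b1 b2 using e
  obtain ⟨t', ⟨c1, c2⟩, c3⟩ := (((far_out (G := G) (finite_iUnion fun i =>
    (finite_Iic (m i)).image (Ψ i)) x σ).and (eventually_ge_atTop t)).and
      (eventually_all.2 fun i => eventually_ge_atTop (m' i))).exists
  obtain ⟨Φ, h3, h4⟩ := h' x t'
  choose d1 d2 n' d3 d4 d5 using h3
  have hc := fun i => cat_spec (G := G) (a := Ψ i) (n := m i) (fun k _ => (a1 i).1 k)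
    ((d1 i).shift (m' i)) ((d4 i _ ((c3 i).trans (d3 i))).trans (b2 i 0).symm)
  have cl : ∀ i k, (k ≤ m i ∧ cat (Ψ i) (m i) (fun k => Φ i (m' i + k)) k = Ψ i k) ∨
      ∃ j, cat (Ψ i) (m i) (fun k => Φ i (m' i + k)) k = Φ i j ∧
        (Φ i j = Ψ i k ∨ t' ≤ G.dist x (Φ i j)) := fun i k => by
    rcases le_total k (m i) with hk | hk
    · exact Or.inl ⟨hk, (hc i).2.1 k hk⟩
    · obtain ⟨j, rfl⟩ := Nat.exists_eq_add_of_le hk
      refine Or.inr ⟨m' i + j, (hc i).2.2.1 j, ?_⟩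
      rcases le_total (m' i + j) (n' i) with hj | hj
      exacts [Or.inl ((d4 i _ hj).trans (b2 i j).symm), Or.inr (d5 i _ hj)]
  refine ⟨_, fun i => ⟨(hc i).1, TE.trans ⟨m i, m' i, (hc i).2.2.1⟩ (d2 i), n i, a3 i,
    fun k hk => ((hc i).2.1 k (hk.trans (b1 i))).trans (a4 i k hk), fun k hk => ?_⟩, ?_⟩
  · rcases cl i k with ⟨-, e⟩ | ⟨j, e, e' | e'⟩
    · exact e ▸ a5 i k hk
    · exact e ▸ e' ▸ a5 i k hk
    · exact e ▸ c2.trans e'
  · rintro i j e _ ⟨k, rfl⟩ _ ⟨l, rfl⟩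
    have p := h2 i j e _ ⟨k, rfl⟩ _ ⟨l, rfl⟩
    rcases cl i k with ⟨u1, u2⟩ | ⟨k', u1, u2⟩ <;> rcases cl j l with ⟨v1, v2⟩ | ⟨l', v1, v2⟩
    · rwa [u2, v2]
    · rw [u2, v1]
      rcases v2 with v2 | v2
      exacts [v2 ▸ p, c1 _ (mem_iUnion.2 ⟨i, k, u1, rfl⟩) _ v2]
    · rw [u1, v2]
      rcases u2 with u2 | u2
      exacts [u2 ▸ p, c1.symm _ u2 _ (mem_iUnion.2 ⟨j, l, v1, rfl⟩)]
    · rw [u1, v1]
      exact h4 i j e _ ⟨k', rfl⟩ _ ⟨l', rfl⟩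

theorem md_lnk {σ κ : ℕ} {M L : ι → ℕ → V} {a b c d : ι} (hκ : κ ≤ σ) (h : MD G σ M L)
    (h1 : a ≠ c) (h2 : a ≠ d) (h3 : b ≠ c) (h4 : b ≠ d)
    (l : Lnk G κ (M a) (M b) (M c) (M d)) : Lnk G κ (L a) (L b) (L c) (L d) := by
  obtain ⟨A, A', m1, m2, m3, m4, f1, f2, l1, l2, hf⟩ := l
  obtain ⟨t, ⟨c1, c2⟩, c3⟩ := (((far_out (G := G) f1 (M a 0) κ).and
    (far_out (G := G) f2 (M a 0) κ)).and (eventually_ge_atTop (m1 + m2 + m3 + m4))).exists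
  obtain ⟨Ψ, h5, h6⟩ := h (M a 0) t
  choose a1 a2 n a3 a4 a5 using h5
  have cl : ∀ i m, ∀ z ∈ Ψ i '' Ici m, z ∈ M i '' Ici m ∨ t ≤ G.dist (M a 0) z := by
    rintro i m _ ⟨k, hk, rfl⟩
    rcases le_total k (n i) with e | e
    exacts [Or.inl ⟨k, hk, (a4 i k e).symm⟩, Or.inr (a5 i k e)]
  have q : ∀ i j m m', i ≠ j → Far G κ (Ψ i '' Ici m) (Ψ j '' Ici m') := fun i j m m' e =>
    ((h6 i j e).le hκ).mono (image_subset_range _ _) (image_subset_range _ _)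
  refine Lnk.te4 ⟨A, A', m1, m2, m3, m4, f1, f2, ?_, ?_, ?_⟩ (a1 a) (a1 b) (a1 c) (a1 d)
    (a2 a) (a2 b) (a2 c) (a2 d)
  · rwa [a4 a m1 (by have := a3 a; omega), a4 b m2 (by have := a3 b; omega)]
  · rwa [a4 c m3 (by have := a3 c; omega), a4 d m4 (by have := a3 d; omega)]
  · refine Far.union (Far.union ?_ ?_) ?_ <;> refine Far.union' (Far.union' ?_ ?_) ?_
    · exact fun x hx y hy => hf x (Or.inl (Or.inl hx)) y (Or.inl (Or.inl hy))
    · exact fun x hx y hy => (cl _ _ y hy).elim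
        (fun e => hf x (Or.inl (Or.inl hx)) y (Or.inl (Or.inr e))) (c1 x hx y)
    · exact fun x hx y hy => (cl _ _ y hy).elim
        (fun e => hf x (Or.inl (Or.inl hx)) y (Or.inr e)) (c1 x hx y)
    · exact fun x hx y hy => (cl _ _ x hx).elim
        (fun e => hf x (Or.inl (Or.inr e)) y (Or.inl (Or.inl hy))) fun e => c2.symm x e y hy
    · exact q _ _ _ _ h1
    · exact q _ _ _ _ h2
    · exact fun x hx y hy => (cl _ _ x hx).elim
        (fun e => hf x (Or.inr e) y (Or.inl (Or.inl hy))) fun e => c2.symm x e y hy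
    · exact q _ _ _ _ h3
    · exact q _ _ _ _ h4

theorem md_ex (hU : UPSpec) [G.LocallyFinite] [Fintype ι] {κ : Type} [Fintype κ] {σ : ℕ}
    {ω : ℕ → V} {M : ι → ℕ → V} {L : κ → ℕ → V} {e : ι → κ} (hσ : 1 ≤ σ) (hω : LR G ω)
    (hM : RF G (9 * σ) ω M) (hL : RF G (9 * σ) ω L)
    (hc : Fintype.card ι ^ 2 + 2 * Fintype.card ι ≤ Fintype.card κ)
    (he : Function.Injective e) : ∃ π : Equiv.Perm ι, MD G σ M fun i => L (e (π i)) := by
  have key : ∀ t, ∃ π : Equiv.Perm ι, ∃ Ψ : ι → ℕ → V, (∀ i, LR G (Ψ i) ∧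
      TE (Ψ i) (L (e (π i))) ∧ ∃ n, t ≤ n ∧ (∀ k ≤ n, Ψ i k = M i k) ∧
        ∀ k, n ≤ k → t ≤ G.dist (ω 0) (Ψ i k)) ∧
      ∀ i j, i ≠ j → Far G σ (range (Ψ i)) (range (Ψ j)) := fun t => by
    have sub : ∀ (w : ℕ → V) n, (range fun k => w (n + k)) ⊆ w '' Ici n := by
      rintro w n _ ⟨k, rfl⟩
      exact ⟨_, Nat.le_add_right _ _, rfl⟩
    obtain ⟨n, n1, n2⟩ := ((eventually_all.2 fun i => (hM.lr i).tail
      (finite_ball (G := G) (ω 0) t) (9 * σ)).and (eventually_ge_atTop t)).exists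
    obtain ⟨O, hO⟩ : ∃ O : ι → Set V, O = fun i => {y | G.dist (ω 0) y ≤ t} ∪
      ⋃ j ∈ {j | j ≠ i}, M j '' Iic n := ⟨_, rfl⟩
    have fO : ∀ i, (O i).Finite := fun i => hO ▸ (finite_ball (ω 0) t).union
      ((toFinite _).biUnion fun j _ => (finite_Iic n).image _)
    obtain ⟨n', n3⟩ := (eventually_all.2 fun i => eventually_all.2 fun l =>
      (hL.lr l).tail (fO i) (9 * σ)).exists
    obtain ⟨π, Φ, r1, r2⟩ := (hU G σ ω _ _ O (fun _ => ∅) hσ hω (rf_shift hM hω n)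
      (rf_shift hL hω n') hc (fun i => ⟨fO i, by
        rw [hO]
        refine ((n1 i).mono le_rfl (sub _ _)).union fun x hx y hy => ?_
        obtain ⟨j, hj, hx⟩ := mem_iUnion₂.1 hx
        exact hM.far j i hj x (image_subset_range _ _ hx) y (image_subset_range _ _ (sub _ _ hy)),
        fun l => (n3 i l).mono le_rfl (sub _ _)⟩)
      (fun l => ⟨finite_empty, fun _ _ h => h.elim, fun _ _ _ h => h.elim⟩)).2 e he
    have hs := fun i => cat_spec (G := G) (a := M i) (n := n) (fun k _ => (hM.lr i).1 k)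
      (r1.lr i) (r2 i).1
    have q : ∀ i j, i ≠ j → Far G σ (M i '' Iic n) (range (Φ j)) := fun i j h =>
      (r2 j).2.2.mono (fun z hz => hO ▸ Or.inr (mem_iUnion₂.2 ⟨i, h, hz⟩)) le_rfl
    refine ⟨π, _, fun i => ⟨(hs i).1, (TE.trans ⟨n, 0, fun k => by
      rw [(hs i).2.2.1, zero_add]⟩ (r2 i).2.1).trans (TE.shift _ n'), n, n2, (hs i).2.1,
        fun k hk => ?_⟩, fun i j h => Far.mono ?_ (hs i).2.2.2 (hs j).2.2.2⟩
    · obtain ⟨j, rfl⟩ := Nat.exists_eq_add_of_le hk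
      rw [(hs i).2.2.1]
      by_contra c
      have := (r2 i).2.2 (Φ i j) (by rw [hO]; exact Or.inl (not_le.1 c).le) _ ⟨j, rfl⟩
      rw [dist_self] at this
      omega
    · exact ((((hM.far i j h).le (by omega)).mono (image_subset_range _ _)
        (image_subset_range _ _)).union' (q i j h)).union ((q j i h.symm).symm.union' (r1.far i j h))
  by_contra c
  push Not at c
  choose π Ψ k1 k2 using key
  obtain ⟨p, hp⟩ := Finite.exists_infinite_fiber π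
  refine c p fun x t => ?_
  obtain ⟨t', t1, t2⟩ := (infinite_coe_iff.1 hp).exists_gt (t + G.dist (ω 0) x)
  obtain rfl : π t' = p := t1
  refine ⟨Ψ t', fun i => ?_, k2 t'⟩
  obtain ⟨u1, u2, n, u3, u4, u5⟩ := k1 t' i
  refine ⟨u1, u2, n, by omega, u4, fun k hk => ?_⟩
  have := u5 k hk
  have := tri (G := G) (ω 0) x (Ψ t' i k)
  omega

/-- Late points are far from the other rays and from the base point. -/
def Q (G : SimpleGraph V) (x : V) (Ψ : ι → ℕ → V) (m k k' : ℕ) : Prop :=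
  ∀ i j, m ≤ j → k' ≤ G.dist x (Ψ i j) ∧ ∀ i', i ≠ i' → ∀ j', k ≤ G.dist (Ψ i j) (Ψ i' j')

/-- The invariant of the construction. -/
def Stg (G : SimpleGraph V) (ω : ℕ → V) (s : ℕ) (p : (ι → ℕ → V) × ℕ) : Prop :=
  (∀ i, LR G (p.1 i)) ∧ (RF G (9 * s) ω fun i k => p.1 i (p.2 + k)) ∧ Q G (ω 0) p.1 p.2 s s

theorem ex_inv [Finite ι] {ω : ℕ → V} (hω : LR G ω) {s : ℕ} {Ψ L : ι → ℕ → V}
    (h : ∀ i, LR G (Ψ i) ∧ TE (Ψ i) (L i)) (hL : RF G (9 * s) ω L) (n : ℕ) :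
    ∃ n', n < n' ∧ Stg G ω s (Ψ, n') := by
  choose m m' e using fun i => (h i).2
  have f : ∀ i j, i ≠ j → ∀ k l, m i ≤ k → m j ≤ l → 9 * s ≤ G.dist (Ψ i k) (Ψ j l) := by
    intro i j c k l hk hl
    obtain ⟨k, rfl⟩ := Nat.exists_eq_add_of_le hk
    obtain ⟨l, rfl⟩ := Nat.exists_eq_add_of_le hl
    rw [e, e]
    exact hL.far i j c _ ⟨_, rfl⟩ _ ⟨_, rfl⟩
  obtain ⟨n', ⟨⟨n1, n2⟩, n3⟩, n4⟩ := ((((eventually_gt_atTop n).and
    (eventually_all.2 fun i => eventually_ge_atTop (m i))).and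
    (eventually_all.2 fun i => eventually_all.2 fun j =>
      (h i).1.tail ((finite_Iic (m j)).image (Ψ j)) s)).and
    (eventually_all.2 fun i => (h i).1.tail (finite_singleton (ω 0)) s)).exists
  refine ⟨n', n1, fun i => (h i).1, ⟨fun i => (h i).1.shift _, fun i =>
    (((TE.shift _ _).trans (h i).2).se ((h i).1.shift _)).trans (hL.se i) ((h i).1.shift _)
      (hL.lr i) hω, ?_⟩, fun i j hj => ⟨n4 i _ rfl _ ⟨j, hj, rfl⟩, fun i' c j' => ?_⟩⟩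
  · rintro i j c _ ⟨k, rfl⟩ _ ⟨l, rfl⟩
    exact f i j c _ _ ((n2 i).trans (Nat.le_add_right _ _)) ((n2 j).trans (Nat.le_add_right _ _))
  · rcases le_total j' (m i') with q | q
    · exact (n3 i i').symm _ ⟨j, hj, rfl⟩ _ ⟨j', q, rfl⟩
    · exact le_trans (by omega) (f i i' c _ _ ((n2 i).trans hj) q)

theorem step (hM : MDSpec) [G.LocallyFinite] {N : ℕ} {ω : ℕ → V} (hω : LR G ω) (hT : Thk G ω)
    (s : ℕ) (p : (Fin N → ℕ → V) × ℕ) (h : 1 ≤ s ∧ Stg G ω s p) :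
    ∃ p' : (Fin N → ℕ → V) × ℕ, Stg G ω (s + 1) p' ∧ p.2 < p'.2 ∧
      (∀ i, ∀ j ≤ p.2, p'.1 i j = p.1 i j) ∧
      ∀ m k k', k ≤ s → k' ≤ s → Q G (ω 0) p.1 m k k' → Q G (ω 0) p'.1 m k k' := by
  obtain ⟨Ψ, n⟩ := p
  obtain ⟨hs, h1, h2, -⟩ := h
  obtain ⟨L, hL⟩ := hT (9 * (s + 1)) (N ^ 2 + 2 * N)
  have he := Fin.castLE_injective (show N ≤ N ^ 2 + 2 * N by omega)
  obtain ⟨π, hπ⟩ := (hM G s).2.2 ω _ L _ hs hω h2 (hL.le (by omega)) (by simp) he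
  obtain ⟨t, c1, c2⟩ := ((far_out (G := G) (finite_iUnion fun i =>
    (finite_Iic n).image (Ψ i)) (ω 0) s).and (eventually_ge_atTop s)).exists
  obtain ⟨Φ, h3, h4⟩ := hπ (ω 0) t
  choose a1 a2 r a3 a4 a5 using h3
  have hc := fun i => cat_spec (G := G) (a := Ψ i) (n := n) (fun k _ => (h1 i).1 k) (a1 i)
    (a4 i 0 (Nat.zero_le _))
  obtain ⟨n', n1, n2⟩ := ex_inv hω (fun i => ⟨(hc i).1, TE.trans ⟨n, 0, fun k => by
    rw [(hc i).2.2.1, zero_add]⟩ (a2 i)⟩) (hL.comp (he.comp π.injective)) n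
  have cl : ∀ i k, (k ≤ n ∧ cat (Ψ i) n (Φ i) k = Ψ i k) ∨
      ∃ j, cat (Ψ i) n (Φ i) k = Φ i j ∧ (Φ i j = Ψ i k ∨ t ≤ G.dist (ω 0) (Φ i j)) := by
    intro i k
    rcases le_total k n with hk | hk
    · exact Or.inl ⟨hk, (hc i).2.1 k hk⟩
    · obtain ⟨j, rfl⟩ := Nat.exists_eq_add_of_le hk
      exact Or.inr ⟨j, (hc i).2.2.1 j, (le_total j (r i)).imp (a4 i j) (a5 i j)⟩
  refine ⟨(_, n'), n2, n1, fun i => (hc i).2.1, fun m k k' k1 k2 q i j hj =>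
    ⟨?_, fun i' c j' => ?_⟩⟩
  all_goals dsimp only at q ⊢
  · rcases cl i j with ⟨-, e⟩ | ⟨l, e, e' | e'⟩
    · exact e ▸ (q i j hj).1
    · exact e ▸ e' ▸ (q i j hj).1
    · exact e ▸ k2.trans (c2.trans e')
  · have p := (q i j hj).2 i' c j'
    rcases cl i j with ⟨u1, u2⟩ | ⟨l, u1, u2⟩ <;> rcases cl i' j' with ⟨v1, v2⟩ | ⟨l', v1, v2⟩
    · rwa [u2, v2]
    · rw [u2, v1]
      rcases v2 with v2 | v2
      exacts [v2 ▸ p, k1.trans (c1 _ (mem_iUnion.2 ⟨i, j, u1, rfl⟩) _ v2)]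
    · rw [u1, v2]
      rcases u2 with u2 | u2
      exacts [u2 ▸ p, k1.trans (c1.symm _ u2 _ (mem_iUnion.2 ⟨i', j', v1, rfl⟩))]
    · rw [u1, v1]
      exact k1.trans (h4 i i' c _ ⟨l, rfl⟩ _ ⟨l', rfl⟩)

end MDiv

open MDiv

theorem mdSpec (hU : UPSpec) : MDSpec := fun _ _ _ _ _ =>
  ⟨fun _ _ _ => md_trans, fun _ _ _ _ _ _ _ h _ => md_lnk h, fun _ _ _ _ => md_ex hU⟩

theorem divSpec (hM : MDSpec) : DivSpec := by
  intro V G _ _ ω hω hT S N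
  obtain ⟨L, hL⟩ := hT (9 * (S + 1)) N
  obtain ⟨n, -, hn⟩ := ex_inv hω (fun i => ⟨hL.lr i, TE.refl _⟩) hL 0
  choose! f f1 f2 f3 f4 using step (N := N) hM hω hT
  obtain ⟨p, p0, p1⟩ : ∃ p : ℕ → (Fin N → ℕ → V) × ℕ, p 0 = (L, n) ∧
      ∀ k, p (k + 1) = f (S + 1 + k) (p k) :=
    ⟨fun k => Nat.rec (L, n) (fun k => f (S + 1 + k)) k, rfl, fun _ => rfl⟩
  have hI : ∀ k, 1 ≤ S + 1 + k ∧ Stg G ω (S + 1 + k) (p k) := fun k => by
    refine ⟨by omega, ?_⟩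
    induction k with
    | zero => exact p0 ▸ hn
    | succ k ih =>
      rw [p1]
      exact f1 (S + 1 + k) _ ⟨by omega, ih⟩
  have mo : StrictMono fun k => (p k).2 := strictMono_nat_of_lt_succ fun k => by
    rw [p1]
    exact f2 _ _ (hI k)
  have ag : ∀ k l, k ≤ l → ∀ i, ∀ j ≤ (p k).2, (p l).1 i j = (p k).1 i j := fun k l h i j hj => by
    induction h with
    | refl => rfl
    | step h ih => rw [p1, f3 _ _ (hI _) i j (hj.trans (mo.monotone h)), ih]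
  have ag' : ∀ i j l, j ≤ l → (p j).1 i j = (p l).1 i j := fun i j l h =>
    (ag j l h i j (mo.id_le j)).symm
  have pq : ∀ k m a b, a ≤ S + 1 + k → b ≤ S + 1 + k → Q G (ω 0) (p k).1 m a b →
      Q G (ω 0) (fun i j => (p j).1 i j) m a b := fun k m a b ha hb q => by
    have : ∀ l, k ≤ l → Q G (ω 0) (p l).1 m a b := fun l h => by
      induction h with
      | refl => exact q
      | @step l h ih =>
        have h : k ≤ l := h
        exact p1 l ▸ f4 _ _ (hI l) m a b (by omega) (by omega) ih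
    intro i j hj
    dsimp only
    refine ⟨ag' i j (j + k) (by omega) ▸ (this _ (by omega) i j hj).1, fun i' c j' => ?_⟩
    rw [ag' i j (j + j' + k) (by omega), ag' i' j' (j + j' + k) (by omega)]
    exact (this _ (by omega) i j hj).2 i' c j'
  have pq' := fun k => pq k _ _ _ le_rfl le_rfl (hI k).2.2.2
  refine ⟨fun i j => (p j).1 i j, ⟨fun i => ⟨fun j => ?_, fun x t => ?_⟩, fun i x t => ?_, ?_⟩,
    fun i j c t => ?_⟩
  · dsimp only
    rw [ag' i j (j + 1) (by omega)]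
    exact ((hI _).2.1 i).1 j
  · filter_upwards [eventually_ge_atTop (p (t + G.dist (ω 0) x)).2] with j hj
    have := (pq' _ i j hj).1
    have := tri (G := G) (ω 0) x ((p j).1 i j)
    dsimp only at *
    omega
  · obtain ⟨k, hk⟩ : ∃ k, k = t + G.dist (ω 0) x := ⟨_, rfl⟩
    obtain ⟨-, -, r, q⟩ := hI k
    obtain ⟨a, b, l⟩ := r.se i x t
    refine ⟨(p k).2, b, Lk.trans ?_ l⟩
    rw [ag k _ (mo.id_le k) i _ le_rfl]
    refine (r.lr i).lk (i := 0) fun j _ _ => ?_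
    have := (q i ((p k).2 + j) (Nat.le_add_right _ _)).1
    have := tri (G := G) (ω 0) x ((p k).1 i ((p k).2 + j))
    change t ≤ _
    omega
  · rintro i j c _ ⟨k, rfl⟩ _ ⟨l, rfl⟩
    refine (pq 0 0 S 0 (by omega) (by omega) ?_ i k (Nat.zero_le _)).2 j c l
    rw [p0]
    exact fun i j _ => ⟨Nat.zero_le _, fun i' c j' =>
      le_trans (by omega) (hL.far i i' c _ ⟨j, rfl⟩ _ ⟨j', rfl⟩)⟩
  · filter_upwards [eventually_ge_atTop (p t).2] with k hk m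
    exact le_trans (by omega) ((pq' t i k hk).2 j c m)

end Pool.Agent.MP_77f003_co.H49
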